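import Pool.Agent.V11210.ZZ.Gen
import Pool.Agent.Q163.LE.Sim

/-!
# Relations with very well approximable coefficients
-/

set_option autoImplicit false

namespace Pool.Agent.J6H72.ZL

open Finset Pool.Agent.V11210.ZZ

/-- real vectors of coefficients -/
abbrev RVec (r : ℕ) : Type := (Fin 4 → ℝ) × (Fin r → ℝ)

/-- the value of a real vector -/
noncomputable def rval {r : ℕ} (z : Fin r → ℝ) (v : RVec r) : ℝ :=
  v.1 0 * (zeta 2 * zeta 3) - v.1 1 * zeta 2 - v.1 2 * zeta 3 - v.1 3 * zeta 4 - ∑ i, v.2 i * z i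

/-- simultaneous approximation of order `w` -/
def Apx (V : Set ℝ) (w : ℕ) : Prop :=
  ∀ s : Finset ℝ, (∀ x ∈ s, x ∈ V) → ∀ q₀ : ℕ, ∃ q : ℕ, q₀ ≤ q ∧ 1 ≤ q ∧
    ∀ x ∈ s, ∃ p : ℤ, |(q : ℝ) * x - p| < 1 / (q : ℝ) ^ w

/-- the coordinates are in `V` -/
def In {r : ℕ} (V : Set ℝ) (v : RVec r) : Prop := (∀ i, v.1 i ∈ V) ∧ ∀ i, v.2 i ∈ V

/-- the sum of the absolute values of the numbers of the relation -/
noncomputable def tot {r : ℕ} (z : Fin r → ℝ) : ℝ :=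
  |zeta 2 * zeta 3| + |zeta 2| + |zeta 3| + |zeta 4| + ∑ i, |z i|

/-- an integer vector as a real vector, divided by `q` -/
noncomputable def scl {r : ℕ} (q : ℕ) (u : Vec r) : RVec r :=
  (fun i => (u.1 i : ℝ) / q, fun i => (u.2 i : ℝ) / q)

theorem approx {r : ℕ} {V : Set ℝ} {κ : ℕ} (hV : Apx V (κ + 1)) {c : ℝ} (hc : 0 < c) (z : Fin r → ℝ)
    {n : ℕ} (v : Fin n → RVec r) (hvV : ∀ j, In V (v j)) (hv : ∀ j, rval z (v j) = 0) (q₀ : ℕ) :
    ∃ (q : ℕ) (X : ℝ) (u : Fin n → Vec r), q₀ ≤ q ∧ 1 ≤ q ∧ 1 ≤ X ∧ (∀ j, u j ∈ near c κ z X) ∧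
      (∀ j i, |(q : ℝ) * (v j).1 i - (u j).1 i| < 1 / (q : ℝ) ^ (κ + 1)) ∧
      (∀ j i, |(q : ℝ) * (v j).2 i - (u j).2 i| < 1 / (q : ℝ) ^ (κ + 1)) := by
  classical
  obtain ⟨s, hs⟩ : ∃ s : Finset ℝ, s = (univ.image fun x : Fin n × Fin 4 => (v x.1).1 x.2) ∪
    (univ.image fun x : Fin n × Fin r => (v x.1).2 x.2) := ⟨_, rfl⟩
  have hs1 : ∀ j i, (v j).1 i ∈ s := fun j i => by
    rw [hs]
    exact mem_union_left _ (mem_image_of_mem (fun x : Fin n × Fin 4 => (v x.1).1 x.2) (mem_univ (j, i)))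
  have hs2 : ∀ j i, (v j).2 i ∈ s := fun j i => by
    rw [hs]
    exact mem_union_right _ (mem_image_of_mem (fun x : Fin n × Fin r => (v x.1).2 x.2) (mem_univ (j, i)))
  have hsV : ∀ x ∈ s, x ∈ V := by
    intro x hx
    rw [hs] at hx
    rcases mem_union.1 hx with h | h
    · obtain ⟨y, _, rfl⟩ := mem_image.1 h
      exact (hvV y.1).1 y.2
    · obtain ⟨y, _, rfl⟩ := mem_image.1 h
      exact (hvV y.1).2 y.2
  obtain ⟨M, hM⟩ : ∃ M : ℝ, M = 1 + ∑ x ∈ s, |x| := ⟨_, rfl⟩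
  have hM1 : 1 ≤ M := by
    rw [hM]
    have : 0 ≤ ∑ x ∈ s, |x| := sum_nonneg fun _ _ => abs_nonneg _
    linarith
  have hMx : ∀ x ∈ s, |x| + 1 ≤ M := by
    intro x hx
    rw [hM]
    have := single_le_sum (f := fun x : ℝ => |x|) (fun _ _ => abs_nonneg _) hx
    linarith
  have hB0 : 0 ≤ tot z := by
    unfold tot
    positivity
  obtain ⟨q1, hq1⟩ : ∃ q1 : ℕ, tot z * M ^ κ / c < q1 := exists_nat_gt _
  obtain ⟨q, hq0, hqq, hap⟩ := hV s hsV (max q₀ q1)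
  have hqr : (1 : ℝ) ≤ q := by exact_mod_cast hqq
  have hqr0 : (0 : ℝ) < q := by linarith
  choose! p hp using hap
  have hpow : 1 ≤ (q : ℝ) ^ (κ + 1) := one_le_pow₀ hqr
  have hinv : 1 / (q : ℝ) ^ (κ + 1) ≤ 1 := by
    rw [div_le_one (by positivity)]
    exact hpow
  have hpb : ∀ x ∈ s, |(p x : ℝ)| ≤ M * q := by
    intro x hx
    have h1 := hp x hx
    have h2 : |(p x : ℝ)| ≤ |(q : ℝ) * x| + |(q : ℝ) * x - p x| := by
      have := abs_sub ((q : ℝ) * x) ((q : ℝ) * x - p x)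
      rwa [sub_sub_cancel] at this
    rw [abs_mul, Nat.abs_cast] at h2
    have h3 := hMx x hx
    nlinarith [abs_nonneg x]
  refine ⟨q, M * q, fun j => (fun i => p ((v j).1 i), fun i => p ((v j).2 i)), (le_max_left _ _).trans hq0, hqq,
    by nlinarith, fun j => ⟨fun i => hpb _ (hs1 j i), fun i => hpb _ (hs2 j i), ?_⟩, fun j i => hp _ (hs1 j i),
    fun j i => hp _ (hs2 j i)⟩
  have e : value z ((fun i => p ((v j).1 i), fun i => p ((v j).2 i)) : Vec r) =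
      -(((q : ℝ) * (v j).1 0 - p ((v j).1 0)) * (zeta 2 * zeta 3) - ((q : ℝ) * (v j).1 1 - p ((v j).1 1)) * zeta 2
        - ((q : ℝ) * (v j).1 2 - p ((v j).1 2)) * zeta 3 - ((q : ℝ) * (v j).1 3 - p ((v j).1 3)) * zeta 4
        - ∑ i, ((q : ℝ) * (v j).2 i - p ((v j).2 i)) * z i) := by
    have h0 := hv j
    unfold rval at h0
    have h1 : ∑ i, ((q : ℝ) * (v j).2 i - p ((v j).2 i)) * z i =
        (q : ℝ) * ∑ i, (v j).2 i * z i - ∑ i, (p ((v j).2 i) : ℝ) * z i := by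
      rw [mul_sum, ← sum_sub_distrib]
      exact sum_congr rfl fun i _ => by ring
    rw [h1]
    unfold value
    simp only
    linear_combination (q : ℝ) * h0
  have hsum : |∑ i, ((q : ℝ) * (v j).2 i - p ((v j).2 i)) * z i| ≤ 1 / (q : ℝ) ^ (κ + 1) * ∑ i, |z i| := by
    refine (abs_sum_le_sum_abs _ _).trans ?_
    rw [mul_sum]
    refine sum_le_sum fun i _ => ?_
    rw [abs_mul]
    exact mul_le_mul_of_nonneg_right (hp _ (hs2 j i)).le (abs_nonneg _)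
  have hone : ∀ (i : Fin 4) (t : ℝ), |((q : ℝ) * (v j).1 i - p ((v j).1 i)) * t| ≤ 1 / (q : ℝ) ^ (κ + 1) * |t| := by
    intro i t
    rw [abs_mul]
    exact mul_le_mul_of_nonneg_right (hp _ (hs1 j i)).le (abs_nonneg _)
  have hval : |value z ((fun i => p ((v j).1 i), fun i => p ((v j).2 i)) : Vec r)| ≤ 1 / (q : ℝ) ^ (κ + 1) * tot z := by
    rw [e, abs_neg]
    have a1 := hone 0 (zeta 2 * zeta 3)
    have a2 := hone 1 (zeta 2)
    have a3 := hone 2 (zeta 3)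
    have a4 := hone 3 (zeta 4)
    unfold tot
    rw [abs_le] at a1 a2 a3 a4 hsum
    rw [abs_le]
    constructor <;> nlinarith
  refine hval.trans_lt ?_
  have hq1' : tot z * M ^ κ / c < q := hq1.trans_le (by exact_mod_cast (le_max_right _ _).trans hq0)
  rw [div_lt_iff₀ hc] at hq1'
  rw [mul_pow, one_div, inv_mul_eq_div, div_lt_div_iff₀ (by positivity) (by positivity), pow_succ]
  have h9 : 0 < (q : ℝ) ^ κ := by positivity
  nlinarith

theorem dist_lt {r : ℕ} (v : RVec r) (u : Vec r) {q : ℕ} (hq : 1 ≤ q) {w : ℕ}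
    (h1 : ∀ i, |(q : ℝ) * v.1 i - u.1 i| < 1 / (q : ℝ) ^ w) (h2 : ∀ i, |(q : ℝ) * v.2 i - u.2 i| < 1 / (q : ℝ) ^ w) :
    dist (scl q u) v ≤ 1 / q := by
  have hqr : (1 : ℝ) ≤ q := by exact_mod_cast hq
  have hqr0 : (0 : ℝ) < q := by linarith
  have hpow : 1 ≤ (q : ℝ) ^ w := one_le_pow₀ hqr
  have hinv : 1 / (q : ℝ) ^ w ≤ 1 := by
    rw [div_le_one (by positivity)]
    exact hpow
  have key : ∀ x : ℝ, ∀ p : ℤ, |(q : ℝ) * x - p| < 1 / (q : ℝ) ^ w → dist ((p : ℝ) / q) x ≤ 1 / q := by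
    intro x p h
    rw [Real.dist_eq]
    have e : (p : ℝ) / q - x = -((q : ℝ) * x - p) / q := by
      field_simp
      ring
    rw [e, abs_div, abs_neg, Nat.abs_cast]
    exact div_le_div_of_nonneg_right (h.le.trans hinv) hqr0.le
  rw [Prod.dist_eq, max_le_iff]
  exact ⟨(dist_pi_le_iff (by positivity)).2 fun i => key _ _ (h1 i), (dist_pi_le_iff (by positivity)).2 fun i => key _ _ (h2 i)⟩

/-- more than `r + 1` relations are linearly dependent -/
theorem dependent (r : ℕ) : ∃ w : ℕ, ∀ V : Set ℝ, Apx V w → ∀ z : Fin r → ℝ, ∀ v : Fin (r + 2) → RVec r,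
    (∀ j, In V (v j)) → (∀ j, rval z (v j) = 0) → ¬ LinearIndependent ℝ v := by
  obtain ⟨c, hc, κ, hgen⟩ := gen r
  refine ⟨κ + 1, fun V hV z v hvV hv hli => ?_⟩
  have hopen : IsOpen {f : Fin (r + 2) → RVec r | LinearIndependent ℝ f} := isOpen_setOfPred_linearIndependent
  obtain ⟨ε, hε, hball⟩ := Metric.isOpen_iff.1 hopen v hli
  obtain ⟨q2, hq2⟩ : ∃ q2 : ℕ, 1 / ε < q2 := exists_nat_gt _
  obtain ⟨q, X, u, hq0, hq1, hX, hu, h1, h2⟩ := approx hV hc z v hvV hv q2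
  obtain ⟨l, hl, hl0⟩ := hgen z X hX u hu
  have hqr : (1 : ℝ) ≤ q := by exact_mod_cast hq1
  have hqr0 : (0 : ℝ) < q := by linarith
  have hmem : (fun j => scl q (u j)) ∈ Metric.ball v ε := by
    rw [Metric.mem_ball]
    refine lt_of_le_of_lt ((dist_pi_le_iff (by positivity)).2 fun j => dist_lt (v j) (u j) hq1 (h1 j) (h2 j)) ?_
    have h3 : 1 / ε < q := hq2.trans_le (by exact_mod_cast hq0)
    rw [div_lt_iff₀ hε] at h3
    rw [div_lt_iff₀ hqr0]
    linarith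
  have hli2 : LinearIndependent ℝ (fun j => scl q (u j)) := hball hmem
  rw [Fintype.linearIndependent_iff] at hli2
  apply hl
  funext j
  have h3 := hli2 (fun j => (l j : ℝ)) (by
    have e1 : ∀ i, ∑ j, l j * (u j).1 i = 0 := by
      intro i
      have := congrFun (congrArg Prod.fst hl0) i
      simpa [Prod.fst_sum, Finset.sum_apply] using this
    have e2 : ∀ i, ∑ j, l j * (u j).2 i = 0 := by
      intro i
      have := congrFun (congrArg Prod.snd hl0) i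
      simpa [Prod.snd_sum, Finset.sum_apply] using this
    refine Prod.ext ?_ ?_
    · funext i
      have e3 : (∑ j, (l j : ℝ) * (u j).1 i) = 0 := by exact_mod_cast e1 i
      simp only [Prod.fst_sum, Finset.sum_apply, Prod.smul_fst, Pi.smul_apply, smul_eq_mul, scl, Prod.fst_zero, Pi.zero_apply]
      rw [← zero_div (q : ℝ), ← e3, sum_div]
      exact sum_congr rfl fun j _ => by ring
    · funext i
      have e3 : (∑ j, (l j : ℝ) * (u j).2 i) = 0 := by exact_mod_cast e2 i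
      simp only [Prod.snd_sum, Finset.sum_apply, Prod.smul_snd, Pi.smul_apply, smul_eq_mul, scl, Prod.snd_zero, Pi.zero_apply]
      rw [← zero_div (q : ℝ), ← e3, sum_div]
      exact sum_congr rfl fun j _ => by ring) j
  exact_mod_cast h3

/-- an integer close to zero -/
theorem int_zero {n : ℤ} (h : |(n : ℝ)| < 1) : n = 0 := by
  have : |n| < 1 := by exact_mod_cast h
  exact Int.abs_lt_one_iff.1 this

/-- a relation without further numbers -/
theorem shape : ∃ w : ℕ, ∀ V : Set ℝ, Apx V w → ∀ z : Fin 0 → ℝ, ∀ v : RVec 0, In V v → rval z v = 0 → v ≠ 0 →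
    v.1 2 ≠ 0 ∧ 5 * v.1 0 * v.1 1 + 2 * v.1 2 * v.1 3 ≠ 0 := by
  obtain ⟨c, hc, κ, hbase⟩ := base
  refine ⟨κ + 1 + 1, fun V hV z v hvV hv hv0 => ?_⟩
  have hc2 : 0 < c := hc
  obtain ⟨S, hS⟩ : ∃ S : ℝ, S = 1 + |v.1 0| + |v.1 1| + |v.1 2| + |v.1 3| := ⟨_, rfl⟩
  have hS1 : 1 ≤ S := by
    rw [hS]
    have := abs_nonneg (v.1 0)
    have := abs_nonneg (v.1 1)
    have := abs_nonneg (v.1 2)
    have := abs_nonneg (v.1 3)
    linarith
  obtain ⟨q2, hq2⟩ : ∃ q2 : ℕ, 14 * S + 7 < q2 := exists_nat_gt _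
  -- some coordinate is not zero
  obtain ⟨i0, hi0⟩ : ∃ i0, v.1 i0 ≠ 0 := by
    by_contra hcon
    push Not at hcon
    exact hv0 (Prod.ext (funext fun i => hcon i) (funext fun i => i.elim0))
  obtain ⟨q3, hq3⟩ : ∃ q3 : ℕ, 1 / |v.1 i0| < q3 := exists_nat_gt _
  obtain ⟨q, X, u, hq0, hq1, hX, hu, h1, -⟩ := approx (κ := κ + 1) (c := c) hV hc z (fun _ : Fin 1 => v) (fun _ => hvV)
    (fun _ => hv) (max q2 q3)
  have hqr : (1 : ℝ) ≤ q := by exact_mod_cast hq1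
  have hqr0 : (0 : ℝ) < q := by linarith
  have hq2' : 14 * S + 7 < q := hq2.trans_le (by exact_mod_cast (le_max_left _ _).trans hq0)
  have hq3' : 1 / |v.1 i0| < q := hq3.trans_le (by exact_mod_cast (le_max_right _ _).trans hq0)
  have hun : u 0 ∈ near c κ z X := near_mono hc.le le_rfl (Nat.le_succ κ) hX (hu 0)
  have hpow : (q : ℝ) ^ 2 ≤ (q : ℝ) ^ (κ + 1 + 1) := pow_le_pow_right₀ hqr (by omega)
  have herr : ∀ i, |(q : ℝ) * v.1 i - (u 0).1 i| < 1 / (q : ℝ) ^ 2 := fun i =>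
    (h1 0 i).trans_le (div_le_div_of_nonneg_left zero_le_one (by positivity) hpow)
  have hinv : 1 / (q : ℝ) ^ 2 ≤ 1 := by
    rw [div_le_one (by positivity)]
    exact one_le_pow₀ hqr
  have hu0 : u 0 ≠ 0 := by
    intro h
    have h3 := (herr i0).trans_le hinv
    rw [h] at h3
    simp only [Prod.fst_zero, Pi.zero_apply, Int.cast_zero, sub_zero] at h3
    rw [abs_mul, Nat.abs_cast] at h3
    rw [div_lt_iff₀ (abs_pos.2 hi0)] at hq3'
    linarith
  obtain ⟨hb, hd⟩ := (hbase z X hX (u 0) hun).1 hu0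
  constructor
  · intro h
    have h3 := (herr 2).trans_le hinv
    rw [h, mul_zero, zero_sub, abs_neg] at h3
    exact hb (int_zero h3)
  · intro h
    apply hd
    apply int_zero
    push_cast
    -- `u i = q v i - e i`
    obtain ⟨e, he⟩ : ∃ e : Fin 4 → ℝ, ∀ i, e i = (q : ℝ) * v.1 i - (u 0).1 i := ⟨_, fun _ => rfl⟩
    have hu' : ∀ i, ((u 0).1 i : ℝ) = (q : ℝ) * v.1 i - e i := fun i => by rw [he]; ring
    have he' : ∀ i, |e i| < 1 / (q : ℝ) ^ 2 := fun i => by rw [he]; exact herr i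
    have hvS : ∀ i : Fin 4, |v.1 i| ≤ S := by
      intro i
      rw [hS]
      have h0 := abs_nonneg (v.1 0)
      have h1 := abs_nonneg (v.1 1)
      have h2 := abs_nonneg (v.1 2)
      have h3 := abs_nonneg (v.1 3)
      fin_cases i <;> simp only [Fin.zero_eta, Fin.mk_one, Fin.reduceFinMk] <;> linarith
    have ident : (5 : ℝ) * (u 0).1 0 * (u 0).1 1 + 2 * (u 0).1 2 * (u 0).1 3 =
        - 5 * (q : ℝ) * (v.1 0 * e 1 + v.1 1 * e 0) - 2 * (q : ℝ) * (v.1 2 * e 3 + v.1 3 * e 2) + 5 * (e 0 * e 1) + 2 * (e 2 * e 3) := by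
      rw [hu', hu', hu', hu']
      linear_combination (q : ℝ) ^ 2 * h
    rw [ident]
    have hη0 : 0 < 1 / (q : ℝ) ^ 2 := by positivity
    have hve : ∀ i j, |v.1 i * e j| ≤ S * (1 / (q : ℝ) ^ 2) := fun i j => by
      rw [abs_mul]
      exact mul_le_mul (hvS i) (he' j).le (abs_nonneg _) (by linarith)
    have hee : ∀ i j, |e i * e j| ≤ 1 * (1 / (q : ℝ) ^ 2) := fun i j => by
      rw [abs_mul]
      exact mul_le_mul ((he' i).le.trans hinv) (he' j).le (abs_nonneg _) zero_le_one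
    have hqe : (q : ℝ) * (1 / (q : ℝ) ^ 2) = 1 / q := by
      field_simp
    have hq14 : (14 * S + 7) * (1 / q) < 1 := by
      rw [mul_one_div, div_lt_one hqr0]
      exact hq2'
    have hqq : 1 / (q : ℝ) ^ 2 ≤ 1 / q := by
      rw [div_le_div_iff₀ (by positivity) hqr0]
      nlinarith
    have b1 := hve 0 1
    have b2 := hve 1 0
    have b3 := hve 2 3
    have b4 := hve 3 2
    have b5 := hee 0 1
    have b6 := hee 2 3
    have c1 : |(q : ℝ) * (v.1 0 * e 1)| ≤ S * (1 / q) := by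
      rw [abs_mul, Nat.abs_cast, ← hqe]
      nlinarith
    have c2 : |(q : ℝ) * (v.1 1 * e 0)| ≤ S * (1 / q) := by
      rw [abs_mul, Nat.abs_cast, ← hqe]
      nlinarith
    have c3 : |(q : ℝ) * (v.1 2 * e 3)| ≤ S * (1 / q) := by
      rw [abs_mul, Nat.abs_cast, ← hqe]
      nlinarith
    have c4 : |(q : ℝ) * (v.1 3 * e 2)| ≤ S * (1 / q) := by
      rw [abs_mul, Nat.abs_cast, ← hqe]
      nlinarith
    rw [abs_le] at c1 c2 c3 c4 b5 b6
    rw [abs_lt]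
    constructor <;> linarith

end Pool.Agent.J6H72.ZL
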